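import Mathlib

namespace Pool.Agent.Results.MP_3cbb73_an.GreedyOrder

open Real

/-- middle part of the weight -/
noncomputable def wm (y : ℝ) : ℝ := y - y * log y + y ^ 2 / (2 * exp 1)

noncomputable def y0 : ℝ := exp (-2)

noncomputable def cl (y : ℝ) : ℝ := max y0 (min y (2 * exp 1))

noncomputable def wg (y : ℝ) : ℝ := wm (cl y)

noncomputable def kap : ℝ := 1 / 2 + 1 / (4 * exp 1)

noncomputable def kap0 : ℝ := wm y0

lemma exp1_lb : (2.7 : ℝ) < exp 1 := lt_trans (by norm_num) Real.exp_one_gt_d9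
lemma exp1_ub : exp 1 < (2.72 : ℝ) := lt_trans Real.exp_one_lt_d9 (by norm_num)

lemma exp1_pos : (0 : ℝ) < exp 1 := exp_pos 1

lemma y0_pos : 0 < y0 := exp_pos _

lemma y0_eq : y0 = 1 / (exp 1) ^ 2 := by
  unfold y0
  rw [Real.exp_neg, ← Real.exp_nat_mul]; norm_num

lemma y0_lt_one : y0 < 1 := by
  unfold y0; rw [Real.exp_lt_one_iff]; norm_num

lemma y0_ub : y0 < 0.14 := by
  rw [y0_eq, div_lt_iff₀ (by positivity)]
  nlinarith [exp1_lb]

lemma y0_lt_top : y0 < 2 * exp 1 := by
  linarith [y0_lt_one, exp1_lb]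

lemma cl_pos (y : ℝ) : 0 < cl y := lt_of_lt_of_le y0_pos (le_max_left _ _)

lemma cl_ge (y : ℝ) : y0 ≤ cl y := le_max_left _ _

lemma cl_le (y : ℝ) : cl y ≤ 2 * exp 1 := max_le y0_lt_top.le (min_le_right _ _)

lemma cl_mono {y z : ℝ} (h : y ≤ z) : cl y ≤ cl z :=
  max_le_max le_rfl (min_le_min h le_rfl)

lemma log_le_div (y : ℝ) (hy : 0 < y) : log y ≤ y / exp 1 := by
  have h := Real.log_le_sub_one_of_pos (x := y / exp 1) (by positivity)
  rw [Real.log_div hy.ne' (exp_pos 1).ne', Real.log_exp] at h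
  linarith

lemma wm_mono {y z : ℝ} (hy : 0 < y) (h : y ≤ z) : wm y ≤ wm z := by
  have key : MonotoneOn wm (Set.Ioi 0) := by
    apply monotoneOn_of_deriv_nonneg (convex_Ioi 0)
    · unfold wm
      apply ContinuousOn.add
      · apply ContinuousOn.sub continuousOn_id
        apply ContinuousOn.mul continuousOn_id
        exact Real.continuousOn_log.mono (fun x hx => by simpa using (ne_of_gt hx))
      · fun_prop
    · rw [interior_Ioi]
      intro x hx
      have hx' : x ≠ 0 := ne_of_gt hx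
      unfold wm
      apply DifferentiableAt.differentiableWithinAt
      fun_prop (disch := exact hx')
    · rw [interior_Ioi]
      intro x hx
      have hx0 : 0 < x := hx
      have hd : HasDerivAt wm (1 - (1 * log x + x * x⁻¹) + (2 * x) / (2 * exp 1)) x := by
        have h1 := (hasDerivAt_id' x).sub ((hasDerivAt_id' x).mul (Real.hasDerivAt_log hx0.ne'))
        have h2 := ((hasDerivAt_pow 2 x).div_const (2 * exp 1))
        have h3 : HasDerivAt wm _ x := h1.add h2
        exact h3.congr_deriv (by norm_num)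
      rw [hd.deriv]
      have := log_le_div x hx0
      rw [mul_inv_cancel₀ hx0.ne']
      have e : (2 * x) / (2 * exp 1) = x / exp 1 := by
        field_simp
      rw [e]; linarith
  exact key hy (lt_of_lt_of_le hy h) h

lemma wg_mono {y z : ℝ} (h : y ≤ z) : wg y ≤ wg z := wm_mono (cl_pos y) (cl_mono h)

lemma kap0_eq : kap0 = 3 * y0 + y0 ^ 2 / (2 * exp 1) := by
  unfold kap0 wm
  have : log y0 = -2 := by unfold y0; exact Real.log_exp _
  rw [this]; ring

lemma kap0_ge : y0 ≤ kap0 := by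
  rw [kap0_eq]
  have := y0_pos
  have : 0 ≤ y0 ^ 2 / (2 * exp 1) := by positivity
  linarith

lemma kap0_pos : 0 < kap0 := lt_of_lt_of_le y0_pos kap0_ge

lemma wg_ge_kap0 (y : ℝ) : kap0 ≤ wg y := wm_mono y0_pos (cl_ge y)

lemma wg_pos (y : ℝ) : 0 < wg y := lt_of_lt_of_le kap0_pos (wg_ge_kap0 y)

lemma wm_pos {y : ℝ} (hy : y0 ≤ y) : 0 < wm y :=
  lt_of_lt_of_le kap0_pos (wm_mono y0_pos hy)

/-- `wm y / y` is antitone on `(0, 2e]`. -/
lemma wm_anti {y z : ℝ} (hy : 0 < y) (h : y ≤ z) (hz : z ≤ 2 * exp 1) :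
    wm z * y ≤ wm y * z := by
  have hz0 : 0 < z := lt_of_lt_of_le hy h
  unfold wm
  have hl : log y - log z ≤ (y - z) / z := by
    have := Real.log_le_sub_one_of_pos (x := y / z) (by positivity)
    rw [Real.log_div hy.ne' hz0.ne'] at this
    have e : (y - z) / z = y / z - 1 := by field_simp
    rw [e]; exact this
  have hl2 : (log y - log z) * z ≤ y - z := by
    rwa [le_div_iff₀ hz0] at hl
  have hE := exp_pos 1
  -- goal: y z (log y - log z) + y z (z - y)/(2e) ≤ 0
  have h1 : y * z * (log y - log z) ≤ y * (y - z) := by nlinarith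
  have h2 : y * z * (z - y) / (2 * exp 1) ≤ y * (z - y) := by
    rw [div_le_iff₀ (by positivity)]
    have : 0 ≤ y * (z - y) := mul_nonneg hy.le (by linarith)
    nlinarith
  have e : (z - z * log z + z ^ 2 / (2 * exp 1)) * y - (y - y * log y + y ^ 2 / (2 * exp 1)) * z
      = y * z * (log y - log z) + y * z * (z - y) / (2 * exp 1) := by
    field_simp; ring
  linarith

lemma cl_ratio {y z : ℝ} (hy : 0 < y) (h : y ≤ z) : cl z * y ≤ cl y * z := by
  have hz : 0 < z := lt_of_lt_of_le hy h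
  have ht : 0 < 2 * exp 1 := by positivity
  unfold cl
  rcases le_total z (2 * exp 1) with h2 | h2
  · rw [min_eq_left h2, min_eq_left (h.trans h2)]
    rcases le_total y0 z with h3 | h3
    · rw [max_eq_right h3]
      have : y ≤ max y0 y := le_max_right _ _
      nlinarith
    · rw [max_eq_left h3]
      have : y0 ≤ max y0 y := le_max_left _ _
      have := y0_pos
      nlinarith
  · rw [min_eq_right h2, max_eq_right y0_lt_top.le]
    rcases le_total y (2 * exp 1) with h4 | h4
    · rw [min_eq_left h4]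
      have : y ≤ max y0 y := le_max_right _ _
      nlinarith
    · rw [min_eq_right h4, max_eq_right y0_lt_top.le]
      nlinarith

lemma wg_anti {y z : ℝ} (hy : 0 < y) (h : y ≤ z) : wg z * y ≤ wg y * z := by
  have ha := cl_pos y
  have hb := cl_pos z
  have h1 := wm_anti ha (cl_mono h) (cl_le z)
  have h2 := cl_ratio hy h
  have hz : 0 < z := lt_of_lt_of_le hy h
  have hm := wg_pos y
  have hm2 := wg_pos z
  unfold wg at *
  -- wm b * a ≤ wm a * b ; b * y ≤ a * z
  have h3 : wm (cl z) * cl y * y ≤ wm (cl y) * (cl z * y) := by nlinarith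
  have h4 : wm (cl y) * (cl z * y) ≤ wm (cl y) * (cl y * z) := by
    exact mul_le_mul_of_nonneg_left h2 hm.le
  have h5 : cl y * (wm (cl z) * y) ≤ cl y * (wm (cl y) * z) := by nlinarith
  exact le_of_mul_le_mul_left h5 ha

lemma wg_one : wg 1 = 2 * kap := by
  have : cl 1 = 1 := by
    unfold cl
    rw [min_eq_left (by linarith [exp1_lb]), max_eq_right y0_lt_one.le]
  unfold wg
  rw [this]
  unfold wm kap
  rw [Real.log_one]
  field_simp; ring

lemma kap_pos : 0 < kap := by unfold kap; positivity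

lemma wg_ge (y : ℝ) : y - y ^ 2 / (2 * exp 1) ≤ wg y := by
  have hE := exp1_lb
  rcases le_total y y0 with h | h
  · have h1 := wg_ge_kap0 y
    have h2 := kap0_ge
    have : 0 ≤ y ^ 2 / (2 * exp 1) := by positivity
    linarith
  · have hy : 0 < y := lt_of_lt_of_le y0_pos h
    rcases le_total y (2 * exp 1) with h2 | h2
    · have : cl y = y := by unfold cl; rw [min_eq_left h2, max_eq_right h]
      unfold wg; rw [this]; unfold wm
      have hl := log_le_div y hy
      have : y * log y ≤ y * (y / exp 1) := mul_le_mul_of_nonneg_left hl hy.le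
      have e : y * (y / exp 1) = y ^ 2 / (2 * exp 1) + y ^ 2 / (2 * exp 1) := by
        field_simp; ring
      linarith
    · have h3 : y - y ^ 2 / (2 * exp 1) ≤ 0 := by
        have : y ≤ y ^ 2 / (2 * exp 1) := by
          rw [le_div_iff₀ (by positivity)]; nlinarith
        linarith
      exact h3.trans (wg_pos y).le

lemma wg_le (y : ℝ) (hy : 0 ≤ y) : wg y ≤ kap0 + kap0 / y0 * y := by
  have h0 := y0_pos
  have hk := kap0_pos
  rcases le_total y y0 with h | h
  · have : cl y = y0 := by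
      unfold cl
      rw [max_eq_left]
      exact (min_le_left _ _).trans h
    unfold wg; rw [this]
    have : 0 ≤ kap0 / y0 * y := by positivity
    unfold kap0 at *
    linarith
  · have h1 := wg_anti y0_pos h
    have hg : wg y0 = kap0 := by
      have : cl y0 = y0 := by
        unfold cl
        rw [max_eq_left]
        exact (min_le_left _ _)
      unfold wg kap0; rw [this]
    rw [hg] at h1
    have : wg y ≤ kap0 / y0 * y := by
      rw [div_mul_eq_mul_div, le_div_iff₀ h0]; exact h1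
    linarith

/-- the monovariant `wg y / y + log y - y/(2e)` is antitone (written without division by `y`) -/
noncomputable def wk (y : ℝ) : ℝ := wg y / y + log y - y / (2 * exp 1)

lemma wk_low {y z : ℝ} (hy : 0 < y) (h : y ≤ z) (hz : z ≤ y0) : wk z ≤ wk y := by
  have hz0 : 0 < z := lt_of_lt_of_le hy h
  have e1 : wg y = kap0 := by
    have : cl y = y0 := by
      unfold cl; rw [max_eq_left]; exact (min_le_left _ _).trans (h.trans hz)
    unfold wg kap0; rw [this]
  have e2 : wg z = kap0 := by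
    have : cl z = y0 := by
      unfold cl; rw [max_eq_left]; exact (min_le_left _ _).trans hz
    unfold wg kap0; rw [this]
  unfold wk
  rw [e1, e2]
  have hl : log z - log y ≤ (z - y) / y := by
    have := Real.log_le_sub_one_of_pos (x := z / y) (by positivity)
    rw [Real.log_div hz0.ne' hy.ne'] at this
    have e : (z - y) / y = z / y - 1 := by field_simp
    rw [e]; exact this
  have h3 : kap0 / y - kap0 / z = kap0 * (z - y) / (y * z) := by
    field_simp
  have h4 : (z - y) / y ≤ kap0 * (z - y) / (y * z) := by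
    rw [div_le_div_iff₀ hy (by positivity)]
    have : z ≤ kap0 := hz.trans kap0_ge
    have : 0 ≤ (z - y) * y := mul_nonneg (by linarith) hy.le
    nlinarith
  have h5 : y / (2 * exp 1) ≤ z / (2 * exp 1) := by
    apply div_le_div_of_nonneg_right h (by positivity)
  linarith

lemma wk_mid {y : ℝ} (hy : y0 ≤ y) (h : y ≤ 2 * exp 1) : wk y = 1 := by
  have hy0 : 0 < y := lt_of_lt_of_le y0_pos hy
  have : cl y = y := by unfold cl; rw [min_eq_left h, max_eq_right hy]
  unfold wk wg; rw [this]; unfold wm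
  field_simp; ring

lemma wk_high {y z : ℝ} (hy : 2 * exp 1 ≤ y) (h : y ≤ z) : wk z ≤ wk y := by
  have hE := exp_pos 1
  have hy0 : 0 < y := by linarith
  have hz0 : 0 < z := lt_of_lt_of_le hy0 h
  have e1 : cl y = 2 * exp 1 := by
    unfold cl; rw [min_eq_right hy, max_eq_right y0_lt_top.le]
  have e2 : cl z = 2 * exp 1 := by
    unfold cl; rw [min_eq_right (hy.trans h), max_eq_right y0_lt_top.le]
  unfold wk wg
  rw [e1, e2]
  have hl : log z - log y ≤ (z - y) / y := by
    have := Real.log_le_sub_one_of_pos (x := z / y) (by positivity)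
    rw [Real.log_div hz0.ne' hy0.ne'] at this
    have e : (z - y) / y = z / y - 1 := by field_simp
    rw [e]; exact this
  have h4 : (z - y) / y ≤ (z - y) / (2 * exp 1) := by
    apply div_le_div_of_nonneg_left (by linarith) (by positivity) hy
  have hp : 0 < wm (2 * exp 1) := wm_pos y0_lt_top.le
  have h5 : wm (2 * exp 1) / z ≤ wm (2 * exp 1) / y := by
    apply div_le_div_of_nonneg_left hp.le hy0 h
  have h6 : (z - y) / (2 * exp 1) = z / (2 * exp 1) - y / (2 * exp 1) := by ring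
  linarith

lemma wk_anti {y z : ℝ} (hy : 0 < y) (h : y ≤ z) : wk z ≤ wk y := by
  have ht := y0_lt_top.le
  rcases le_total z y0 with h1 | h1
  · exact wk_low hy h h1
  · -- y0 ≤ z
    rcases le_total y y0 with h2 | h2
    · have s1 : wk y0 ≤ wk y := wk_low hy h2 le_rfl
      have s0 : wk y0 = 1 := wk_mid le_rfl ht
      rcases le_total z (2 * exp 1) with h3 | h3
      · rw [wk_mid h1 h3]; linarith
      · have s2 := wk_high le_rfl h3
        have s3 : wk (2 * exp 1) = 1 := wk_mid ht le_rfl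
        linarith
    · rcases le_total z (2 * exp 1) with h3 | h3
      · rw [wk_mid h1 h3, wk_mid h2 (h.trans h3)]
      · rcases le_total y (2 * exp 1) with h4 | h4
        · have s2 := wk_high le_rfl h3
          have s3 : wk (2 * exp 1) = 1 := wk_mid ht le_rfl
          rw [wk_mid h2 h4]; linarith
        · exact wk_high h4 h

/-- key integral inequality for the perspective `δ * wg (x/δ)` -/
lemma persp {x d1 d2 : ℝ} (hx : 0 ≤ x) (h1 : 0 < d1) (h : d1 ≤ d2) :
    d1 * wg (x / d1) ≤ d2 * wg (x / d2) - x * log (d2 / d1)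
      + x ^ 2 / (2 * exp 1) * (1 / d1 - 1 / d2) := by
  have h2 : 0 < d2 := lt_of_lt_of_le h1 h
  rcases hx.eq_or_lt with h0 | h0
  · subst h0
    simp only [zero_div, zero_mul, ne_eq, OfNat.ofNat_ne_zero, not_false_eq_true, zero_pow, sub_zero, add_zero]
    exact mul_le_mul_of_nonneg_right h (wg_pos 0).le
  · have hy : 0 < x / d2 := by positivity
    have hyz : x / d2 ≤ x / d1 := by
      apply div_le_div_of_nonneg_left h0.le h1 h
    have hk := wk_anti hy hyz
    unfold wk at hk
    rw [Real.log_div h0.ne' h1.ne', Real.log_div h0.ne' h2.ne'] at hk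
    rw [Real.log_div h2.ne' h1.ne']
    have e1 : wg (x / d1) / (x / d1) = d1 * wg (x / d1) / x := by field_simp
    have e2 : wg (x / d2) / (x / d2) = d2 * wg (x / d2) / x := by field_simp
    rw [e1, e2] at hk
    have hk2 := mul_le_mul_of_nonneg_left hk h0.le
    have e3 : x * (d1 * wg (x / d1) / x + (log x - log d1) - x / d1 / (2 * exp 1))
        = d1 * wg (x / d1) + x * (log x - log d1) - x ^ 2 / (2 * exp 1) * (1 / d1) := by
      field_simp
    have e4 : x * (d2 * wg (x / d2) / x + (log x - log d2) - x / d2 / (2 * exp 1))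
        = d2 * wg (x / d2) + x * (log x - log d2) - x ^ 2 / (2 * exp 1) * (1 / d2) := by
      field_simp
    rw [e3, e4] at hk2
    have e5 : x ^ 2 / (2 * exp 1) * (1 / d1 - 1 / d2) = x ^ 2 / (2 * exp 1) * (1 / d1) - x ^ 2 / (2 * exp 1) * (1 / d2) := by ring
    rw [e5]
    nlinarith

/-- one step, untouched coordinate (normalised) -/
lemma jump_new {x x' z : ℝ} (hz : 1 ≤ z) (h1 : x' - x ≤ z)
    (h2 : z ≤ x + x') : wg x' ≤ kap * (z ^ 2 + x' + x) := by
  have hk := kap_pos
  have hz1 : wg z ≤ 2 * kap * z := by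
    have := wg_anti one_pos hz
    rw [wg_one] at this; linarith
  have hz2 : 2 * kap * z ≤ kap * (z ^ 2 + z) := by nlinarith [mul_nonneg hk.le (mul_nonneg (by linarith : (0:ℝ) ≤ z) (sub_nonneg.2 hz))]
  rcases le_total x' z with h | h
  · have := wg_mono h
    nlinarith
  · have h3 := wg_anti (by linarith : 0 < z) h
    -- wg x' * z ≤ wg z * x'
    have hz0 : 0 < z := by linarith
    have h4 : wg x' * z ≤ (wg z + 2 * kap * (x' - z)) * z := by
      have : wg z * x' = wg z * z + wg z * (x' - z) := by ring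
      have h5 : wg z * (x' - z) ≤ 2 * kap * z * (x' - z) := mul_le_mul_of_nonneg_right hz1 (by linarith)
      nlinarith
    have h6 : wg x' ≤ wg z + 2 * kap * (x' - z) := le_of_mul_le_mul_right h4 hz0
    nlinarith

/-- one step, touched coordinate (normalised) -/
lemma jump_old {x x' z : ℝ} (hx : 0 ≤ x) (hz : 1 ≤ z) (h1 : x' - x ≤ z)
    (h1' : x - x' ≤ z) (h2 : z ≤ x + x') : wg x' - wg x ≤ kap * (z ^ 2 + x' - x) := by
  have hk := kap_pos
  rcases le_total x' x with h | h
  · have := wg_mono h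
    have : 0 ≤ kap * (z ^ 2 + x' - x) := by
      apply mul_nonneg hk.le; nlinarith
    linarith
  · rcases le_total x 1 with h3 | h3
    · rcases hx.eq_or_lt with h0 | h0
      · subst h0
        have := jump_new hz h1 h2
        have := wg_pos 0
        nlinarith
      · have h4 := wg_anti h0 h3
        rw [wg_one] at h4
        have := jump_new hz h1 h2
        nlinarith
    · have hx0 : 0 < x := by linarith
      have h4 := wg_anti one_pos h3
      rw [wg_one] at h4
      have h5 := wg_anti hx0 h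
      -- wg x' * x ≤ wg x * x'
      have h6 : (wg x' - wg x) * x ≤ (2 * kap * (x' - x)) * x := by
        have : wg x * (x' - x) ≤ 2 * kap * x * (x' - x) := by
          apply mul_le_mul_of_nonneg_right _ (by linarith); linarith
        nlinarith
      have h7 : wg x' - wg x ≤ 2 * kap * (x' - x) := le_of_mul_le_mul_right h6 hx0
      have h8 : x' - x ≤ z ^ 2 := by nlinarith
      nlinarith

end Pool.Agent.Results.MP_3cbb73_an.GreedyOrder

namespace Pool.Agent.Results.MP_3cbb73_an.GreedyOrder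

open Real

section Dyn

variable {ι : Type*} [DecidableEq ι]

/-- coordinates touched before step `m` -/
def T (φ : ℕ → ι) (m : ℕ) : Finset ι := (Finset.range m).image φ

/-- unused part of the initial mass -/
noncomputable def U (c : ℕ → ι → ℝ) (φ : ℕ → ι) (m : ℕ) : ℝ := 1 - ∑ i ∈ T φ m, |c 0 i|

noncomputable def A (c : ℕ → ι → ℝ) (φ : ℕ → ι) (m : ℕ) : ℝ :=
  ∑ i ∈ T φ m, |c m i| + U c φ m

structure Dyn (θ : ℝ) (c : ℕ → ι → ℝ) (φ : ℕ → ι) (a E : ℕ → ℝ) : Prop where
  upd : ∀ m i, c (m + 1) i = if i = φ m then c m i - a m else c m i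
  tot : ∀ m, ∑ i ∈ T φ m, |c 0 i| ≤ 1
  en : ∀ m, E (m + 1) = E m - a m ^ 2
  gr : ∀ m, E m ≤ A c φ m * |a m|
  sq : ∀ m, ∑ i ∈ T φ m, (c m i) ^ 2 ≤ θ * E m

variable {θ : ℝ} {c : ℕ → ι → ℝ} {φ : ℕ → ι} {a E : ℕ → ℝ}

lemma T_zero : T φ 0 = ∅ := by simp [T]

lemma T_succ (m : ℕ) : T φ (m + 1) = insert (φ m) (T φ m) := by
  unfold T; rw [Finset.range_add_one, Finset.image_insert]

lemma U_zero : U c φ 0 = 1 := by simp [U, T_zero]

lemma A_zero : A c φ 0 = 1 := by simp [A, U, T_zero]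

lemma U_le (m : ℕ) : U c φ m ≤ 1 := by
  unfold U
  have : 0 ≤ ∑ i ∈ T φ m, |c 0 i| := Finset.sum_nonneg (fun _ _ => abs_nonneg _)
  linarith

lemma Dyn.U_nonneg (h : Dyn θ c φ a E) (m : ℕ) : 0 ≤ U c φ m := by
  unfold U; linarith [h.tot m]

lemma Dyn.untouched (h : Dyn θ c φ a E) (m : ℕ) (i : ι) (hi : i ∉ T φ m) : c m i = c 0 i := by
  induction m with
  | zero => rfl
  | succ m ih =>
    rw [T_succ, Finset.mem_insert, not_or] at hi
    rw [h.upd, if_neg hi.1]
    exact ih hi.2

lemma Dyn.sum_step (h : Dyn θ c φ a E) (W : ℝ → ℝ) (m : ℕ) :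
    ∑ i ∈ T φ (m + 1), W (c (m + 1) i) = ∑ i ∈ T φ m, W (c m i) + W (c m (φ m) - a m)
      - (if φ m ∈ T φ m then W (c m (φ m)) else 0) := by
  have hne : ∀ s : Finset ι, φ m ∉ s → ∑ i ∈ s, W (c (m + 1) i) = ∑ i ∈ s, W (c m i) := by
    intro s hs
    apply Finset.sum_congr rfl
    intro i hi
    rw [h.upd, if_neg]
    rintro rfl; exact hs hi
  have hφ : c (m + 1) (φ m) = c m (φ m) - a m := by rw [h.upd, if_pos rfl]
  by_cases hm : φ m ∈ T φ m
  · rw [if_pos hm, T_succ, Finset.insert_eq_of_mem hm]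
    rw [← Finset.add_sum_erase _ _ hm, ← Finset.add_sum_erase _ (fun i => W (c m i)) hm]
    rw [hne _ (Finset.notMem_erase _ _), hφ]
    ring
  · rw [if_neg hm, T_succ, Finset.sum_insert hm, hne _ hm, hφ]
    ring

lemma Dyn.U_step (h : Dyn θ c φ a E) (m : ℕ) :
    U c φ (m + 1) = U c φ m - (if φ m ∈ T φ m then 0 else |c m (φ m)|) := by
  unfold U
  by_cases hm : φ m ∈ T φ m
  · rw [if_pos hm, T_succ, Finset.insert_eq_of_mem hm]; ring
  · rw [if_neg hm, T_succ, Finset.sum_insert hm, h.untouched m _ hm]; ring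

lemma Dyn.A_step (h : Dyn θ c φ a E) (m : ℕ) :
    A c φ (m + 1) = A c φ m + |c m (φ m) - a m| - |c m (φ m)| := by
  unfold A
  rw [h.sum_step (fun x => |x|), h.U_step]
  by_cases hm : φ m ∈ T φ m
  · rw [if_pos hm, if_pos hm]; ring
  · rw [if_neg hm, if_neg hm]; ring

lemma Dyn.A_nonneg (h : Dyn θ c φ a E) (m : ℕ) : 0 ≤ A c φ m := by
  unfold A
  have : 0 ≤ ∑ i ∈ T φ m, |c m i| := Finset.sum_nonneg (fun _ _ => abs_nonneg _)
  linarith [h.U_nonneg m]

lemma Dyn.A_pos (h : Dyn θ c φ a E) {m : ℕ} (hE : 0 < E m) : 0 < A c φ m := by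
  rcases (h.A_nonneg m).eq_or_lt with h0 | h0
  · have := h.gr m
    rw [← h0, zero_mul] at this; linarith
  · exact h0

noncomputable def dl (c : ℕ → ι → ℝ) (φ : ℕ → ι) (E : ℕ → ℝ) (m : ℕ) : ℝ := E m / A c φ m

lemma Dyn.dl_pos (h : Dyn θ c φ a E) {m : ℕ} (hE : 0 < E m) : 0 < dl c φ E m :=
  div_pos hE (h.A_pos hE)

lemma Dyn.dl_le (h : Dyn θ c φ a E) {m : ℕ} (hE : 0 < E m) : dl c φ E m ≤ |a m| := by
  unfold dl; rw [div_le_iff₀ (h.A_pos hE)]; linarith [h.gr m, mul_comm (A c φ m) (|a m|)]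

/-- the drift of a step -/
noncomputable def ww (c : ℕ → ι → ℝ) (φ : ℕ → ι) (a E : ℕ → ℝ) (m : ℕ) : ℝ :=
  a m ^ 2 / dl c φ E m + |c m (φ m) - a m| - |c m (φ m)|

lemma Dyn.ww_nonneg (h : Dyn θ c φ a E) {m : ℕ} (hE : 0 < E m) : 0 ≤ ww c φ a E m := by
  unfold ww
  have h1 := h.dl_pos hE
  have h2 := h.dl_le hE
  have h3 : |a m| ≤ a m ^ 2 / dl c φ E m := by
    rw [le_div_iff₀ h1, ← sq_abs]
    nlinarith [abs_nonneg (a m)]
  have h4 : |c m (φ m)| ≤ |c m (φ m) - a m| + |a m| := by
    have := abs_add_le (c m (φ m) - a m) (a m)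
    simpa using this
  linarith

/-- `A' (1 - δ'/δ) = w` -/
lemma Dyn.key_id (h : Dyn θ c φ a E) {m : ℕ} (hE : 0 < E m) (hE' : 0 < E (m + 1)) :
    A c φ (m + 1) * (1 - dl c φ E (m + 1) / dl c φ E m) = ww c φ a E m := by
  have h1 := h.A_pos hE
  have h2 := h.A_pos hE'
  have h3 := h.A_step m
  unfold ww dl
  rw [h.en]
  have e : A c φ (m + 1) * (1 - (E m - a m ^ 2) / A c φ (m + 1) / (E m / A c φ m))
      = A c φ (m + 1) - (E m - a m ^ 2) * A c φ m / E m := by
    field_simp
  have e2 : (E m - a m ^ 2) * A c φ m / E m = A c φ m - a m ^ 2 / (E m / A c φ m) := by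
    field_simp
  rw [e, e2, h3]; ring

lemma Dyn.dl_anti (h : Dyn θ c φ a E) {m : ℕ} (hE : 0 < E m) (hE' : 0 < E (m + 1)) :
    dl c φ E (m + 1) ≤ dl c φ E m := by
  have h1 := h.key_id hE hE'
  have h2 := h.ww_nonneg hE
  have h3 := h.A_pos hE'
  have h4 := h.dl_pos hE
  rw [← h1] at h2
  have h5 : 0 ≤ 1 - dl c φ E (m + 1) / dl c φ E m := by
    by_contra hc
    have hc := not_le.1 hc
    nlinarith
  have h6 : dl c φ E (m + 1) / dl c φ E m ≤ 1 := by linarith
  rwa [div_le_one h4] at h6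

noncomputable def Psi (c : ℕ → ι → ℝ) (φ : ℕ → ι) (E : ℕ → ℝ) (m : ℕ) : ℝ :=
  ∑ i ∈ T φ m, dl c φ E m * wg (|c m i| / dl c φ E m) + 2 * kap * U c φ m

/-- the jump part of the change of the potential -/
lemma Dyn.jump (h : Dyn θ c φ a E) {m : ℕ} (hE : 0 < E m) :
    ∑ i ∈ T φ (m + 1), dl c φ E m * wg (|c (m + 1) i| / dl c φ E m)
      + 2 * kap * U c φ (m + 1) ≤ Psi c φ E m + kap * ww c φ a E m := by
  have hd := h.dl_pos hE
  have hda := h.dl_le hE
  set d := dl c φ E m with hdd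
  set x := |c m (φ m)| with hx
  set x' := |c m (φ m) - a m| with hx'
  rw [h.sum_step (fun y => d * wg (|y| / d)), h.U_step]
  unfold Psi
  rw [← hdd]
  have hw : ww c φ a E m = a m ^ 2 / d + x' - x := rfl
  rw [hw]
  have hx0 : 0 ≤ x := abs_nonneg _
  have hx0' : 0 ≤ x' := abs_nonneg _
  have t1 : x' ≤ x + |a m| := by
    have := abs_sub (c m (φ m)) (a m); simpa [hx, hx'] using this
  have t2 : x ≤ x' + |a m| := by
    have := abs_add_le (c m (φ m) - a m) (a m)
    simpa using this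
  have t3 : |a m| ≤ x + x' := by
    have := abs_sub (c m (φ m)) (c m (φ m) - a m)
    simpa using this
  have hz : 1 ≤ |a m| / d := by rw [le_div_iff₀ hd]; linarith
  have n1 : x' / d - x / d ≤ |a m| / d := by
    rw [← sub_div]; apply div_le_div_of_nonneg_right _ hd.le; linarith
  have n2 : x / d - x' / d ≤ |a m| / d := by
    rw [← sub_div]; apply div_le_div_of_nonneg_right _ hd.le; linarith
  have n3 : |a m| / d ≤ x / d + x' / d := by
    rw [← add_div]; apply div_le_div_of_nonneg_right _ hd.le; linarith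
  have e1 : d * ((|a m| / d) ^ 2) = a m ^ 2 / d := by
    rw [div_pow, sq_abs]; field_simp
  by_cases hm : φ m ∈ T φ m
  · rw [if_pos hm, if_pos hm]
    have hj := jump_old (div_nonneg hx0 hd.le) hz n1 n2 n3
    have hj2 := mul_le_mul_of_nonneg_left hj hd.le
    have e2 : d * (kap * ((|a m| / d) ^ 2 + x' / d - x / d)) = kap * (a m ^ 2 / d + x' - x) := by
      have : d * (kap * ((|a m| / d) ^ 2 + x' / d - x / d)) = kap * (d * ((|a m| / d) ^ 2) + d * (x' / d) - d * (x / d)) := by ring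
      rw [this, e1, mul_div_cancel₀ _ hd.ne', mul_div_cancel₀ _ hd.ne']
    rw [e2] at hj2
    nlinarith
  · rw [if_neg hm, if_neg hm]
    have hj := jump_new hz n1 n3
    have hj2 := mul_le_mul_of_nonneg_left hj hd.le
    have e2 : d * (kap * ((|a m| / d) ^ 2 + x' / d + x / d)) = kap * (a m ^ 2 / d + x' + x) := by
      have : d * (kap * ((|a m| / d) ^ 2 + x' / d + x / d)) = kap * (d * ((|a m| / d) ^ 2) + d * (x' / d) + d * (x / d)) := by ring
      rw [this, e1, mul_div_cancel₀ _ hd.ne', mul_div_cancel₀ _ hd.ne']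
    rw [e2] at hj2
    nlinarith

/-- the potential decreases when the mass is large -/
lemma Dyn.Psi_step (h : Dyn θ c φ a E) {m : ℕ} (hE : 0 < E m) (hE' : 0 < E (m + 1))
    (hA : 1 ≤ A c φ (m + 1) * (1 - θ / (2 * exp 1) - kap)) :
    Psi c φ E (m + 1) ≤ Psi c φ E m := by
  have hd := h.dl_pos hE
  have hd' := h.dl_pos hE'
  have hdd := h.dl_anti hE hE'
  have hj := h.jump hE
  have hk := h.key_id hE hE'
  have hw := h.ww_nonneg hE
  have hAp := h.A_pos hE'
  have hU := U_le (c := c) (φ := φ) (m + 1)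
  have hQ := h.sq (m + 1)
  have hexp := exp_pos 1
  set d := dl c φ E m with hd1
  set d' := dl c φ E (m + 1) with hd2
  have hED : E (m + 1) = d' * A c φ (m + 1) := by
    rw [hd2]; unfold dl; field_simp
  have hsum : ∑ i ∈ T φ (m + 1), d' * wg (|c (m + 1) i| / d') ≤
      ∑ i ∈ T φ (m + 1), (d * wg (|c (m + 1) i| / d) - |c (m + 1) i| * log (d / d')
        + |c (m + 1) i| ^ 2 / (2 * exp 1) * (1 / d' - 1 / d)) :=
    Finset.sum_le_sum (fun i _ => persp (abs_nonneg _) hd' hdd)
  rw [Finset.sum_add_distrib, Finset.sum_sub_distrib, ← Finset.sum_mul, ← Finset.sum_mul,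
    ← Finset.sum_div] at hsum
  simp only [sq_abs] at hsum
  have hAt : ∑ i ∈ T φ (m + 1), |c (m + 1) i| = A c φ (m + 1) - U c φ (m + 1) := by
    unfold A; ring
  rw [hAt] at hsum
  have hlog : 1 - d' / d ≤ log (d / d') := by
    have := Real.one_sub_inv_le_log_of_pos (x := d / d') (by positivity)
    rwa [inv_div] at this
  have hρ : 0 ≤ 1 - d' / d := by
    have : d' / d ≤ 1 := by rw [div_le_one hd]; exact hdd
    linarith
  have hA1 : 0 ≤ A c φ (m + 1) - U c φ (m + 1) := by
    rw [← hAt]; exact Finset.sum_nonneg (fun _ _ => abs_nonneg _)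
  have s1 : (A c φ (m + 1) - 1) * (1 - d' / d) ≤ (A c φ (m + 1) - U c φ (m + 1)) * log (d / d') := by
    have s2 : (A c φ (m + 1) - U c φ (m + 1)) * (1 - d' / d) ≤
        (A c φ (m + 1) - U c φ (m + 1)) * log (d / d') := mul_le_mul_of_nonneg_left hlog hA1
    have s3 : (A c φ (m + 1) - 1) * (1 - d' / d) ≤ (A c φ (m + 1) - U c φ (m + 1)) * (1 - d' / d) :=
      mul_le_mul_of_nonneg_right (by linarith) hρ
    linarith
  have hinv : 0 ≤ 1 / d' - 1 / d := by
    have : 1 / d ≤ 1 / d' := one_div_le_one_div_of_le hd' hdd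
    linarith
  have s4 : (∑ i ∈ T φ (m + 1), c (m + 1) i ^ 2) / (2 * exp 1) * (1 / d' - 1 / d) ≤
      θ / (2 * exp 1) * A c φ (m + 1) * (1 - d' / d) := by
    have s5 : (∑ i ∈ T φ (m + 1), c (m + 1) i ^ 2) / (2 * exp 1) * (1 / d' - 1 / d) ≤
        (θ * E (m + 1)) / (2 * exp 1) * (1 / d' - 1 / d) := by
      apply mul_le_mul_of_nonneg_right _ hinv
      apply div_le_div_of_nonneg_right hQ (by positivity)
    have s6 : (θ * E (m + 1)) / (2 * exp 1) * (1 / d' - 1 / d) =
        θ / (2 * exp 1) * A c φ (m + 1) * (1 - d' / d) := by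
      rw [hED]; field_simp
    linarith
  have s7 : kap * ww c φ a E m ≤ (A c φ (m + 1) - 1) * (1 - d' / d)
      - θ / (2 * exp 1) * A c φ (m + 1) * (1 - d' / d) := by
    rw [← hk]
    have : (A c φ (m + 1) - 1) * (1 - d' / d) - θ / (2 * exp 1) * A c φ (m + 1) * (1 - d' / d)
        - kap * (A c φ (m + 1) * (1 - d' / d))
        = (A c φ (m + 1) * (1 - θ / (2 * exp 1) - kap) - 1) * (1 - d' / d) := by ring
    have : 0 ≤ (A c φ (m + 1) * (1 - θ / (2 * exp 1) - kap) - 1) * (1 - d' / d) :=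
      mul_nonneg (by linarith) hρ
    linarith
  have e : Psi c φ E (m + 1) = ∑ i ∈ T φ (m + 1), d' * wg (|c (m + 1) i| / d')
      + 2 * kap * U c φ (m + 1) := rfl
  rw [e]
  linarith

/-- bound for the number of touched coordinates -/
lemma Dyn.X_bound (h : Dyn θ c φ a E) (N : ℕ) (hN : ∀ m ≤ N, 0 < E m) (R : ℝ)
    (hR : ∀ m ≤ N, A c φ m ≤ R) : ∀ m ≤ N,
    ((T φ m).card : ℝ) * dl c φ E m + 2 * U c φ m ≤ R + 2 := by
  intro m
  induction m with
  | zero =>
    intro h0
    rw [T_zero, U_zero]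
    have := hR 0 h0
    rw [A_zero] at this
    simp; linarith
  | succ m ih =>
    intro hm
    have ih' := ih (by omega)
    have hE := hN m (by omega)
    have hE' := hN (m + 1) hm
    have hd := h.dl_pos hE
    have hd' := h.dl_pos hE'
    have hdd := h.dl_anti hE hE'
    have hda := h.dl_le hE
    have hk := h.key_id hE hE'
    have hAp := h.A_pos hE'
    have hAR := hR (m + 1) hm
    rw [h.U_step]
    by_cases hφ : φ m ∈ T φ m
    · rw [if_pos hφ, T_succ, Finset.insert_eq_of_mem hφ]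
      have : ((T φ m).card : ℝ) * dl c φ E (m + 1) ≤ ((T φ m).card : ℝ) * dl c φ E m :=
        mul_le_mul_of_nonneg_left hdd (Nat.cast_nonneg _)
      linarith
    · rw [if_neg hφ, T_succ, Finset.card_insert_of_notMem hφ]
      push_cast
      set n : ℝ := ((T φ m).card : ℝ) with hn
      have hn0 : 0 ≤ n := Nat.cast_nonneg _
      set d := dl c φ E m with hd1
      set d' := dl c φ E (m + 1) with hd2
      set x := |c m (φ m)| with hx
      rcases le_total (d / 2) x with hc | hc
      · have : (n + 1) * d' ≤ (n + 1) * d := mul_le_mul_of_nonneg_left hdd (by linarith)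
        nlinarith
      · -- the drift is at least d
        have hw : d ≤ ww c φ a E m := by
          unfold ww
          have t1 : |a m| ≤ |c m (φ m) - a m| + x := by
            have := abs_sub (c m (φ m)) (c m (φ m) - a m)
            have e : c m (φ m) - (c m (φ m) - a m) = a m := by ring
            rw [e] at this
            linarith
          have t2 : |a m| ≤ a m ^ 2 / dl c φ E m := by
            rw [le_div_iff₀ (by rw [← hd1]; exact hd), ← sq_abs]
            nlinarith [abs_nonneg (a m)]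
          linarith
        rw [← hk] at hw
        have hUn := h.U_nonneg m
        have hx0 : 0 ≤ x := abs_nonneg _
        have hρ : d' = d * (1 - (1 - d' / d)) := by field_simp; ring
        set r := 1 - d' / d with hr
        have hr0 : 0 ≤ r := by
          have : d' / d ≤ 1 := by rw [div_le_one hd]; exact hdd
          rw [hr]; linarith
        have hr1 : r ≤ 1 := by
          have : 0 ≤ d' / d := by positivity
          rw [hr]; linarith
        -- A' r ≥ d
        rcases le_total (A c φ (m + 1)) (n * d) with h5 | h5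
        · have h6 : A c φ (m + 1) * r ≤ n * d * r := mul_le_mul_of_nonneg_right h5 hr0
          have h7 : (n + 1) * d' ≤ n * d := by
            rw [hρ]
            have : 0 ≤ d * r := mul_nonneg hd.le hr0
            nlinarith
          linarith
        · have h7 : (n + 1) * d' ≤ A c φ (m + 1) := by
            rw [hρ]
            have h8 : (n * d) * (1 - r) ≤ A c φ (m + 1) * (1 - r) :=
              mul_le_mul_of_nonneg_right h5 (by linarith)
            have : 0 ≤ d * r := mul_nonneg hd.le hr0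
            nlinarith
          have hU1 := U_le (c := c) (φ := φ) m
          linarith

lemma Dyn.Psi_lower (h : Dyn θ c φ a E) {m : ℕ} (hE : 0 < E m) :
    A c φ m * (1 - θ / (2 * exp 1)) ≤ Psi c φ E m := by
  have hd := h.dl_pos hE
  have hA := h.A_pos hE
  have hU := h.U_nonneg m
  have hQ := h.sq m
  unfold Psi
  set d := dl c φ E m with hd1
  have hED : E m = d * A c φ m := by rw [hd1]; unfold dl; field_simp
  have h1 : ∑ i ∈ T φ m, (|c m i| - |c m i| ^ 2 / (2 * exp 1) / d) ≤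
      ∑ i ∈ T φ m, d * wg (|c m i| / d) := by
    apply Finset.sum_le_sum
    intro i _
    have := mul_le_mul_of_nonneg_left (wg_ge (|c m i| / d)) hd.le
    have e : d * (|c m i| / d - (|c m i| / d) ^ 2 / (2 * exp 1)) = |c m i| - |c m i| ^ 2 / (2 * exp 1) / d := by
      field_simp
    rw [e] at this; exact this
  rw [Finset.sum_sub_distrib, ← Finset.sum_div, ← Finset.sum_div] at h1
  simp only [sq_abs] at h1
  have hAt : ∑ i ∈ T φ m, |c m i| = A c φ m - U c φ m := by unfold A; ring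
  rw [hAt] at h1
  have h2 : (∑ i ∈ T φ m, c m i ^ 2) / (2 * exp 1) / d ≤ θ / (2 * exp 1) * A c φ m := by
    have s5 : (∑ i ∈ T φ m, c m i ^ 2) / (2 * exp 1) / d ≤ (θ * E m) / (2 * exp 1) / d := by
      apply div_le_div_of_nonneg_right _ hd.le
      apply div_le_div_of_nonneg_right hQ (by positivity)
    have s6 : (θ * E m) / (2 * exp 1) / d = θ / (2 * exp 1) * A c φ m := by
      rw [hED]; field_simp
    linarith
  have hkap : 1 / 2 ≤ kap := by unfold kap; have := exp_pos 1; have : 0 ≤ 1 / (4 * exp 1) := by positivity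
                                linarith
  nlinarith

lemma Dyn.Psi_upper (h : Dyn θ c φ a E) {m : ℕ} (hE : 0 < E m) :
    Psi c φ E m ≤ kap0 * (((T φ m).card : ℝ) * dl c φ E m) + kap0 / y0 * A c φ m + 2 * kap := by
  have hd := h.dl_pos hE
  have hU := h.U_nonneg m
  have hU1 := U_le (c := c) (φ := φ) m
  have hk := kap_pos
  have hk0 := kap0_pos
  have hy := y0_pos
  unfold Psi
  set d := dl c φ E m with hd1
  have h1 : ∑ i ∈ T φ m, d * wg (|c m i| / d) ≤ ∑ i ∈ T φ m, (kap0 * d + kap0 / y0 * |c m i|) := by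
    apply Finset.sum_le_sum
    intro i _
    have := mul_le_mul_of_nonneg_left (wg_le (|c m i| / d) (by positivity)) hd.le
    have e : d * (kap0 + kap0 / y0 * (|c m i| / d)) = kap0 * d + kap0 / y0 * |c m i| := by
      field_simp
    rw [e] at this; exact this
  have hms : ∑ i ∈ T φ m, kap0 / y0 * |c m i| = kap0 / y0 * ∑ i ∈ T φ m, |c m i| := by
    rw [Finset.mul_sum]
  rw [Finset.sum_add_distrib, Finset.sum_const, hms, nsmul_eq_mul] at h1
  have hAt : ∑ i ∈ T φ m, |c m i| ≤ A c φ m := by unfold A; linarith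
  have h2 : kap0 / y0 * ∑ i ∈ T φ m, |c m i| ≤ kap0 / y0 * A c φ m :=
    mul_le_mul_of_nonneg_left hAt (by positivity)
  nlinarith

/-- the bound for the mass -/
noncomputable def Kb (θ : ℝ) : ℝ :=
  (2 * kap0 + kap0 / y0 / (1 - θ / (2 * exp 1) - kap) + 2 * kap) / (1 - θ / (2 * exp 1) - kap0)

lemma kap0_lt_kap : kap0 < kap := by
  rw [kap0_eq]
  unfold kap
  have h1 := y0_ub
  have h2 := y0_pos
  have h3 := exp1_lb
  have h4 : y0 ^ 2 / (2 * exp 1) ≤ y0 := by
    rw [div_le_iff₀ (by positivity)]; nlinarith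
  have h5 : y0 ^ 2 / (2 * exp 1) ≤ 0.01 := by
    rw [div_le_iff₀ (by positivity)]; nlinarith
  have : (0:ℝ) < 1 / (4 * exp 1) := by positivity
  linarith

theorem Dyn.A_bound (h : Dyn θ c φ a E) (hη : 0 < 1 - θ / (2 * exp 1) - kap)
    (N : ℕ) (hN : ∀ m ≤ N, 0 < E m) : ∀ m ≤ N, A c φ m ≤ Kb θ := by
  have hk := kap_pos
  have hk0 := kap0_pos
  have hy := y0_pos
  set η := 1 - θ / (2 * exp 1) - kap with hηd
  have hη' : 0 < 1 - θ / (2 * exp 1) - kap0 := by linarith [kap0_lt_kap]
  -- take the largest value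
  obtain ⟨M, hM, hmax⟩ : ∃ M ≤ N, ∀ m ≤ N, A c φ m ≤ A c φ M := by
    obtain ⟨M, hM, h1⟩ := Finset.exists_max_image (Finset.range (N + 1)) (fun m => A c φ m)
      ⟨0, by simp⟩
    exact ⟨M, by simpa [Nat.lt_succ_iff] using hM, fun m hm => h1 m (by simpa [Nat.lt_succ_iff] using hm)⟩
  set R := A c φ M with hR
  have hX := h.X_bound N hN R hmax
  have hPsi : ∀ m ≤ N, Psi c φ E m ≤ kap0 * R + (2 * kap0 + kap0 / y0 / η + 2 * kap) := by
    intro m
    induction m with
    | zero =>
      intro h0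
      unfold Psi
      rw [T_zero, U_zero]
      have hR1 : 1 ≤ R := by have := hmax 0 h0; rwa [A_zero] at this
      have : 0 < kap0 / y0 / η := by positivity
      simp only [Finset.sum_empty]
      nlinarith
    | succ m ih =>
      intro hm
      have hE := hN m (by omega)
      have hE' := hN (m + 1) hm
      rcases le_total 1 (A c φ (m + 1) * η) with h1 | h1
      · exact (h.Psi_step hE hE' h1).trans (ih (by omega))
      · have h2 := h.Psi_upper hE'
        have h3 := hX (m + 1) hm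
        have h4 := h.U_nonneg (m + 1)
        have h5 : A c φ (m + 1) ≤ 1 / η := by rw [le_div_iff₀ hη]; exact h1
        have h6 : kap0 / y0 * A c φ (m + 1) ≤ kap0 / y0 / η := by
          have := mul_le_mul_of_nonneg_left h5 (by positivity : 0 ≤ kap0 / y0)
          calc _ ≤ kap0 / y0 * (1 / η) := this
            _ = _ := by ring
        have h7 : kap0 * (((T φ (m + 1)).card : ℝ) * dl c φ E (m + 1)) ≤ kap0 * (R + 2) :=
          mul_le_mul_of_nonneg_left (by linarith) hk0.le
        linarith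
  have h1 := h.Psi_lower (hN M hM)
  have h2 := hPsi M hM
  intro m hm
  refine (hmax m hm).trans ?_
  unfold Kb
  rw [← hηd, le_div_iff₀ hη']
  rw [← hR] at h1
  nlinarith

/-- decay of the energy -/
theorem Dyn.E_bound (h : Dyn θ c φ a E) (hη : 0 < 1 - θ / (2 * exp 1) - kap)
    (hE0 : ∀ m, 0 ≤ E m) (m : ℕ) : E m * m ≤ (Kb θ) ^ 2 := by
  rcases (hE0 m).eq_or_lt with h0 | h0
  · rw [← h0, zero_mul]; positivity
  · have hpos : ∀ k ≤ m, 0 < E k := by
      intro k hk
      have hanti : Antitone E := antitone_nat_of_succ_le (fun n => by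
        rw [h.en]; linarith [sq_nonneg (a n)])
      exact lt_of_lt_of_le h0 (hanti hk)
    have hA := h.A_bound hη m hpos
    have hK : 0 < Kb θ := lt_of_lt_of_le (h.A_pos h0) (hA m le_rfl)
    have key : ∀ k ≤ m, (k : ℝ) ≤ (Kb θ) ^ 2 / E k := by
      intro k
      induction k with
      | zero => intro _; simp only [Nat.cast_zero]; have := hpos 0 (Nat.zero_le _); positivity
      | succ k ih =>
        intro hk
        have ih' := ih (by omega)
        have hEk := hpos k (by omega)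
        have hEk' := hpos (k + 1) hk
        have hAk := hA k (by omega)
        have h1 : E k ≤ Kb θ * |a k| := (h.gr k).trans (mul_le_mul_of_nonneg_right hAk (abs_nonneg _))
        have h2 : (E k) ^ 2 ≤ (Kb θ) ^ 2 * (a k) ^ 2 := by
          have := pow_le_pow_left₀ hEk.le h1 2
          rwa [mul_pow, sq_abs] at this
        rw [h.en] at hEk' ⊢
        rw [le_div_iff₀ hEk] at ih'
        rw [le_div_iff₀ hEk']
        push_cast
        -- (k+1)(E - a²) ≤ K²
        have h3 : E k * (E k - a k ^ 2) ≤ E k * E k - E k * a k ^ 2 := by linarith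
        have h4 : (E k) * (((k : ℝ) + 1) * (E k - a k ^ 2)) ≤ E k * (Kb θ) ^ 2 := by
          have h5 : (k : ℝ) * E k * (E k - a k ^ 2) ≤ (Kb θ) ^ 2 * (E k - a k ^ 2) :=
            mul_le_mul_of_nonneg_right ih' hEk'.le
          nlinarith
        exact le_of_mul_le_mul_left h4 hEk
    have := key m le_rfl
    rw [le_div_iff₀ h0] at this
    linarith [mul_comm (E m) (m : ℝ)]

end Dyn

end Pool.Agent.Results.MP_3cbb73_an.GreedyOrder

namespace Pool.Agent.Results.MP_3cbb73_an.GreedyOrder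

open Real Filter Topology

section Space

variable {H : Type*} [NormedAddCommGroup H] [InnerProductSpace ℝ H]

/-- A dictionary: a set of unit vectors with dense linear span. -/
def IsDictionary (D : Set H) : Prop :=
  (∀ g ∈ D, ‖g‖ = 1) ∧ Dense (Submodule.span ℝ D : Set H)

/-- `B` is a (normalised) Riesz basis with constants `C₁, C₂`. -/
def IsRB (C₁ C₂ : ℝ) (B : Set H) : Prop :=
  IsDictionary B ∧ ∀ (s : Finset H) (c : H → ℝ), (∀ g ∈ s, g ∈ B) →
    C₁ * √(∑ g ∈ s, |c g| ^ 2) ≤ ‖∑ g ∈ s, c g • g‖ ∧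
    ‖∑ g ∈ s, c g • g‖ ≤ C₂ * √(∑ g ∈ s, |c g| ^ 2)

/-- The class `A₁(D)`. -/
def A1 (D : Set H) : Set H :=
  closure {f | ∃ (s : Finset H) (c : H → ℝ), (∀ g ∈ s, g ∈ D) ∧ ∑ g ∈ s, |c g| ≤ 1 ∧
    f = ∑ g ∈ s, c g • g}

/-- `r` (residuals) and `φ` (chosen elements) form a realization of the Pure Greedy Algorithm
for `f` and the dictionary `D`; here `r m = f_m = f - G_m(f, D)`. -/
def IsPGA (D : Set H) (f : H) (φ : ℕ → H) (r : ℕ → H) : Prop :=
  r 0 = f ∧ ∀ m, φ m ∈ D ∧
    |inner ℝ (r m) (φ m)| = sSup {x | ∃ g ∈ D, x = |inner ℝ (r m) g|} ∧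
    r (m + 1) = r m - (inner ℝ (r m) (φ m) : ℝ) • φ m

/-- the set of all errors `‖f - G_m(f, B)‖` -/
def errs (H : Type*) [NormedAddCommGroup H] [InnerProductSpace ℝ H] (C₁ C₂ : ℝ) (m : ℕ) : Set ℝ :=
  {x | ∃ (B : Set H) (f : H) (φ r : ℕ → H), IsRB C₁ C₂ B ∧ f ∈ A1 B ∧ IsPGA B f φ r ∧ x = ‖r m‖}

/-- `γ(m, RB(C₁,C₂))` -/
noncomputable def gam (H : Type*) [NormedAddCommGroup H] [InnerProductSpace ℝ H]
    (C₁ C₂ : ℝ) (m : ℕ) : ℝ := sSup (errs H C₁ C₂ m)

lemma riesz_sq {C₁ C₂ : ℝ} {B : Set H} (hB : IsRB C₁ C₂ B) (hC : 0 ≤ C₁) (s : Finset H)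
    (c : H → ℝ) (hs : ∀ g ∈ s, g ∈ B) :
    C₁ ^ 2 * ∑ g ∈ s, (c g) ^ 2 ≤ ‖∑ g ∈ s, c g • g‖ ^ 2 := by
  have h := (hB.2 s c hs).1
  have h2 := pow_le_pow_left₀ (by positivity) h 2
  rw [mul_pow, Real.sq_sqrt (Finset.sum_nonneg (fun _ _ => by positivity))] at h2
  simpa only [sq_abs] using h2

open Classical in
/-- limit coefficients of an element of `A₁(B)` -/
lemma exists_coeff {C₁ C₂ : ℝ} {B : Set H} (hB : IsRB C₁ C₂ B) (hC : 0 < C₁) {f : H}
    (hf : f ∈ A1 B) : ∃ c : H → ℝ,
      (∀ s : Finset H, (∀ g ∈ s, g ∈ B) → ∑ g ∈ s, |c g| ≤ 1) ∧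
      (∀ (s : Finset H) (p : H → ℝ), (∀ g ∈ s, g ∈ B) →
        C₁ ^ 2 * ∑ g ∈ s, (c g - p g) ^ 2 ≤ ‖f - ∑ g ∈ s, p g • g‖ ^ 2) ∧
      (∀ (s : Finset H) (p : H → ℝ) (v : H) (D : ℝ), (∀ g ∈ s, g ∈ B) → 0 ≤ D →
        (∀ g ∈ B, |inner ℝ v g| ≤ D) →
        inner ℝ v (f - ∑ g ∈ s, p g • g) ≤
          D * (∑ g ∈ s, |c g - p g| + (1 - ∑ g ∈ s, |c g|))) := by
  obtain ⟨u, hu, hlim⟩ := mem_closure_iff_seq_limit.1 hf
  choose sn cn0 hsn hcn hun using hu
  -- extend coefficients by zero
  let cn : ℕ → H → ℝ := fun n g => if g ∈ sn n then cn0 n g else 0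
  have hcn_out : ∀ n g, g ∉ sn n → cn n g = 0 := fun n g hg => if_neg hg
  have hcn_in : ∀ n g, g ∈ sn n → cn n g = cn0 n g := fun n g hg => if_pos hg
  have hsub : ∀ n (s : Finset H), sn n ⊆ s → ∀ W : H → ℝ → ℝ, (∀ g, W g 0 = 0) →
      ∑ g ∈ s, W g (cn n g) = ∑ g ∈ sn n, W g (cn0 n g) := by
    intro n s hs W hW
    rw [← Finset.sum_subset hs]
    · exact Finset.sum_congr rfl (fun g hg => by rw [hcn_in n g hg])
    · intro g _ hg
      rw [hcn_out n g hg, hW]
  have hu_eq : ∀ n (s : Finset H), sn n ⊆ s → u n = ∑ g ∈ s, cn n g • g := by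
    intro n s hs
    rw [hun n, ← Finset.sum_subset hs]
    · exact Finset.sum_congr rfl (fun g hg => by rw [hcn_in n g hg])
    · intro g _ hg
      rw [hcn_out n g hg, zero_smul]
  have hl1 : ∀ n (s : Finset H), ∑ g ∈ s, |cn n g| ≤ 1 := by
    intro n s
    calc ∑ g ∈ s, |cn n g| ≤ ∑ g ∈ s ∪ sn n, |cn n g| :=
          Finset.sum_le_sum_of_subset_of_nonneg Finset.subset_union_left
            (fun _ _ _ => abs_nonneg _)
      _ = ∑ g ∈ sn n, |cn0 n g| := hsub n _ Finset.subset_union_right (fun _ x => |x|) (by simp)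
      _ ≤ 1 := hcn n
  -- coefficient differences
  have hdiff : ∀ g ∈ B, ∀ n k, |cn n g - cn k g| ≤ C₁⁻¹ * ‖u n - u k‖ := by
    intro g hg n k
    set s := insert g (sn n ∪ sn k) with hs
    have h1 : sn n ⊆ s := (Finset.subset_union_left).trans (Finset.subset_insert _ _)
    have h2 : sn k ⊆ s := (Finset.subset_union_right).trans (Finset.subset_insert _ _)
    have hsB : ∀ g ∈ s, g ∈ B := by
      intro x hx
      rw [hs, Finset.mem_insert, Finset.mem_union] at hx
      rcases hx with rfl | hx | hx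
      · exact hg
      · exact hsn n x hx
      · exact hsn k x hx
    have h3 := riesz_sq hB hC.le s (fun x => cn n x - cn k x) hsB
    have h4 : ∑ x ∈ s, (cn n x - cn k x) • x = u n - u k := by
      rw [hu_eq n s h1, hu_eq k s h2, ← Finset.sum_sub_distrib]
      exact Finset.sum_congr rfl (fun x _ => by rw [sub_smul])
    rw [h4] at h3
    have h5 : (cn n g - cn k g) ^ 2 ≤ ∑ x ∈ s, (cn n x - cn k x) ^ 2 :=
      Finset.single_le_sum (f := fun x => (cn n x - cn k x) ^ 2) (fun _ _ => sq_nonneg _)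
        (by rw [hs]; exact Finset.mem_insert_self _ _)
    have h6 : (C₁ * |cn n g - cn k g|) ^ 2 ≤ ‖u n - u k‖ ^ 2 := by
      rw [mul_pow, sq_abs]
      have := mul_le_mul_of_nonneg_left h5 (sq_nonneg C₁)
      linarith
    have h7 := le_of_sq_le_sq h6 (norm_nonneg _)
    rw [inv_mul_eq_div, le_div_iff₀ hC]
    linarith
  have hcau : CauchySeq u := hlim.cauchySeq
  have hex : ∀ g ∈ B, ∃ l, Tendsto (fun n => cn n g) atTop (𝓝 l) := by
    intro g hg
    apply cauchySeq_tendsto_of_complete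
    rw [Metric.cauchySeq_iff'] at hcau ⊢
    intro ε hε
    obtain ⟨N, hN⟩ := hcau (C₁ * ε) (by positivity)
    refine ⟨N, fun n hn => ?_⟩
    have h1 := hN n hn
    rw [dist_eq_norm] at h1
    rw [Real.dist_eq]
    have h2 := hdiff g hg n N
    have h3 : C₁⁻¹ * ‖u n - u N‖ < C₁⁻¹ * (C₁ * ε) := mul_lt_mul_of_pos_left h1 (by positivity)
    rw [inv_mul_cancel_left₀ hC.ne'] at h3
    linarith
  let c : H → ℝ := fun g => if hg : g ∈ B then (hex g hg).choose else 0
  have hc : ∀ g ∈ B, Tendsto (fun n => cn n g) atTop (𝓝 (c g)) := by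
    intro g hg
    have : c g = (hex g hg).choose := dif_pos hg
    rw [this]; exact (hex g hg).choose_spec
  refine ⟨c, ?_, ?_, ?_⟩
  · intro s hs
    have h1 : Tendsto (fun n => ∑ g ∈ s, |cn n g|) atTop (𝓝 (∑ g ∈ s, |c g|)) :=
      tendsto_finsetSum _ (fun g hg => (hc g (hs g hg)).abs)
    exact le_of_tendsto h1 (Eventually.of_forall (fun n => hl1 n s))
  · intro s p hs
    have h1 : Tendsto (fun n => C₁ ^ 2 * ∑ g ∈ s, (cn n g - p g) ^ 2) atTop
        (𝓝 (C₁ ^ 2 * ∑ g ∈ s, (c g - p g) ^ 2)) :=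
      (tendsto_finsetSum _ (fun g hg => ((hc g (hs g hg)).sub_const _).pow 2)).const_mul _
    have h2 : Tendsto (fun n => ‖u n - ∑ g ∈ s, p g • g‖ ^ 2) atTop
        (𝓝 (‖f - ∑ g ∈ s, p g • g‖ ^ 2)) := ((hlim.sub_const _).norm).pow 2
    refine le_of_tendsto_of_tendsto' h1 h2 (fun n => ?_)
    set w := s ∪ sn n with hw
    have hwB : ∀ g ∈ w, g ∈ B := by
      intro x hx
      rw [hw, Finset.mem_union] at hx
      rcases hx with hx | hx
      · exact hs x hx
      · exact hsn n x hx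
    let q : H → ℝ := fun g => if g ∈ s then p g else 0
    have hq : ∑ g ∈ w, q g • g = ∑ g ∈ s, p g • g := by
      rw [← Finset.sum_subset (Finset.subset_union_left : s ⊆ w)]
      · exact Finset.sum_congr rfl (fun g hg => by simp only [q]; rw [if_pos hg])
      · intro g _ hg
        simp only [q]; rw [if_neg hg, zero_smul]
    have h3 := riesz_sq hB hC.le w (fun x => cn n x - q x) hwB
    have h4 : ∑ x ∈ w, (cn n x - q x) • x = u n - ∑ g ∈ s, p g • g := by
      rw [hu_eq n w Finset.subset_union_right, ← hq, ← Finset.sum_sub_distrib]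
      exact Finset.sum_congr rfl (fun x _ => by rw [sub_smul])
    rw [h4] at h3
    refine le_trans (mul_le_mul_of_nonneg_left ?_ (sq_nonneg _)) h3
    calc ∑ g ∈ s, (cn n g - p g) ^ 2 = ∑ g ∈ s, (cn n g - q g) ^ 2 :=
          Finset.sum_congr rfl (fun g hg => by simp only [q]; rw [if_pos hg])
      _ ≤ ∑ g ∈ w, (cn n g - q g) ^ 2 :=
          Finset.sum_le_sum_of_subset_of_nonneg Finset.subset_union_left
            (fun _ _ _ => sq_nonneg _)
  · intro s p v D hs hD hv
    have h1 : Tendsto (fun n => D * (∑ g ∈ s, |cn n g - p g| + (1 - ∑ g ∈ s, |cn n g|))) atTop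
        (𝓝 (D * (∑ g ∈ s, |c g - p g| + (1 - ∑ g ∈ s, |c g|)))) := by
      apply Tendsto.const_mul
      apply Tendsto.add
      · exact tendsto_finsetSum _ (fun g hg => ((hc g (hs g hg)).sub_const _).abs)
      · exact (tendsto_finsetSum _ (fun g hg => (hc g (hs g hg)).abs)).const_sub _
    have h2 : Tendsto (fun n => (inner ℝ v (u n - ∑ g ∈ s, p g • g) : ℝ)) atTop
        (𝓝 (inner ℝ v (f - ∑ g ∈ s, p g • g))) :=
      (tendsto_const_nhds).inner (hlim.sub_const _)
    refine le_of_tendsto_of_tendsto' h2 h1 (fun n => ?_)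
    set w := s ∪ sn n with hw
    have hwB : ∀ g ∈ w, g ∈ B := by
      intro x hx
      rw [hw, Finset.mem_union] at hx
      rcases hx with hx | hx
      · exact hs x hx
      · exact hsn n x hx
    let q : H → ℝ := fun g => if g ∈ s then p g else 0
    have hq : ∑ g ∈ w, q g • g = ∑ g ∈ s, p g • g := by
      rw [← Finset.sum_subset (Finset.subset_union_left : s ⊆ w)]
      · exact Finset.sum_congr rfl (fun g hg => by simp only [q]; rw [if_pos hg])
      · intro g _ hg
        simp only [q]; rw [if_neg hg, zero_smul]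
    have h4 : u n - ∑ g ∈ s, p g • g = ∑ x ∈ w, (cn n x - q x) • x := by
      rw [hu_eq n w Finset.subset_union_right, ← hq, ← Finset.sum_sub_distrib]
      exact Finset.sum_congr rfl (fun x _ => by rw [sub_smul])
    rw [h4, inner_sum]
    have h5 : ∑ x ∈ w, inner ℝ v ((cn n x - q x) • x) ≤ ∑ x ∈ w, |cn n x - q x| * D := by
      apply Finset.sum_le_sum
      intro x hx
      rw [inner_smul_right]
      calc (cn n x - q x) * inner ℝ v x ≤ |(cn n x - q x) * inner ℝ v x| := le_abs_self _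
        _ = |cn n x - q x| * |inner ℝ v x| := abs_mul _ _
        _ ≤ |cn n x - q x| * D := mul_le_mul_of_nonneg_left (hv x (hwB x hx)) (abs_nonneg _)
    refine h5.trans ?_
    rw [← Finset.sum_mul, mul_comm]
    apply mul_le_mul_of_nonneg_left _ hD
    have h6 : ∑ x ∈ w, |cn n x - q x| = ∑ x ∈ s, |cn n x - p x| + ∑ x ∈ w \ s, |cn n x| := by
      rw [← Finset.sum_sdiff (Finset.subset_union_left : s ⊆ w), add_comm]
      congr 1
      · exact Finset.sum_congr rfl (fun g hg => by simp only [q]; rw [if_pos hg])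
      · refine Finset.sum_congr rfl (fun g hg => ?_)
        rw [Finset.mem_sdiff] at hg
        simp only [q]; rw [if_neg hg.2, sub_zero]
    have h7 : ∑ x ∈ w \ s, |cn n x| + ∑ x ∈ s, |cn n x| ≤ 1 := by
      rw [Finset.sum_sdiff (Finset.subset_union_left : s ⊆ w)]
      exact hl1 n w
    rw [h6]; linarith

open Classical in
/-- the upper estimate -/
theorem upper {C₁ C₂ : ℝ} {B : Set H} (hB : IsRB C₁ C₂ B) (hC : 0 < C₁)
    (hC2 : 2 < (2 * exp 1 - 1) * C₁ ^ 2) {f : H} (hf : f ∈ A1 B) {φ r : ℕ → H}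
    (hr : IsPGA B f φ r) (m : ℕ) : ‖r m‖ ^ 2 * m ≤ (Kb (1 / C₁ ^ 2)) ^ 2 := by
  obtain ⟨c, hc1, hc2, hc3⟩ := exists_coeff hB hC hf
  obtain ⟨hr0, hrs⟩ := hr
  have hφB : ∀ m, φ m ∈ B := fun m => (hrs m).1
  have hnorm : ∀ m, ‖φ m‖ = 1 := fun m => hB.1.1 _ (hφB m)
  -- greedy choice
  have hgreedy : ∀ m, ∀ g ∈ B, |inner ℝ (r m) g| ≤ |inner ℝ (r m) (φ m)| := by
    intro m g hg
    rw [(hrs m).2.1]
    apply le_csSup
    · refine ⟨‖r m‖, ?_⟩
      rintro x ⟨g', hg', rfl⟩
      have := abs_real_inner_le_norm (r m) g'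
      rwa [hB.1.1 g' hg', mul_one] at this
    · exact ⟨g, hg, rfl⟩
  let a : ℕ → ℝ := fun m => inner ℝ (r m) (φ m)
  let p : ℕ → H → ℝ := fun m g => ∑ k ∈ (Finset.range m).filter (fun k => φ k = g), a k
  have hTB : ∀ m, ∀ g ∈ T φ m, g ∈ B := by
    intro m g hg
    unfold T at hg
    rw [Finset.mem_image] at hg
    obtain ⟨k, _, rfl⟩ := hg
    exact hφB k
  have hsum : ∀ m, ∑ g ∈ T φ m, p m g • g = ∑ k ∈ Finset.range m, a k • φ k := by
    intro m
    unfold T
    rw [← Finset.sum_fiberwise_of_maps_to (s := Finset.range m)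
      (t := (Finset.range m).image φ) (g := φ) (fun k hk => Finset.mem_image_of_mem _ hk)]
    apply Finset.sum_congr rfl
    intro g _
    simp only [p]
    rw [Finset.sum_smul]
    apply Finset.sum_congr rfl
    intro k hk
    rw [Finset.mem_filter] at hk
    rw [hk.2]
  have hres : ∀ m, r m = f - ∑ g ∈ T φ m, p m g • g := by
    intro m
    rw [hsum]
    induction m with
    | zero => simp [hr0]
    | succ m ih =>
      rw [Finset.sum_range_succ, (hrs m).2.2]
      nth_rewrite 1 [ih]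
      abel
  have hdyn : Dyn (1 / C₁ ^ 2) (fun m g => c g - p m g) φ a (fun m => ‖r m‖ ^ 2) := by
    have hp0 : ∀ g, p 0 g = 0 := fun g => by simp [p]
    refine ⟨?_, ?_, ?_, ?_, ?_⟩
    · intro m g
      simp only [p]
      rw [Finset.range_add_one, Finset.filter_insert]
      by_cases hg : g = φ m
      · rw [if_pos hg, if_pos hg.symm, Finset.sum_insert (by simp)]; ring
      · rw [if_neg hg, if_neg (fun h => hg h.symm)]
    · intro m
      simp only [hp0, sub_zero]
      exact hc1 _ (hTB m)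
    · intro m
      rw [(hrs m).2.2]
      have h1 : inner ℝ (r m) (φ m) = a m := rfl
      rw [h1, norm_sub_sq_real, inner_smul_right, h1, norm_smul, hnorm m]
      rw [mul_one, Real.norm_eq_abs, sq_abs]; ring
    · intro m
      have h1 := hc3 (T φ m) (p m) (r m) (|a m|) (hTB m) (abs_nonneg _) (hgreedy m)
      rw [← hres m, real_inner_self_eq_norm_sq] at h1
      unfold A U
      simp only [hp0, sub_zero]
      linarith [mul_comm (|a m|) (∑ g ∈ T φ m, |c g - p m g| + (1 - ∑ g ∈ T φ m, |c g|))]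
    · intro m
      have h1 := hc2 (T φ m) (p m) (hTB m)
      rw [← hres m] at h1
      rw [div_mul_eq_mul_div, one_mul, le_div_iff₀ (by positivity)]
      linarith [mul_comm (C₁ ^ 2) (∑ g ∈ T φ m, (c g - p m g) ^ 2)]
  have hη : 0 < 1 - (1 / C₁ ^ 2) / (2 * exp 1) - kap := by
    unfold kap
    have hE := exp_pos 1
    have h1 : (1 / C₁ ^ 2) < exp 1 - 1 / 2 := by
      rw [div_lt_iff₀ (by positivity)]; linarith
    have h2 : (1 / C₁ ^ 2) / (2 * exp 1) < (exp 1 - 1 / 2) / (2 * exp 1) :=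
      div_lt_div_of_pos_right h1 (by positivity)
    have h3 : (exp 1 - 1 / 2) / (2 * exp 1) = 1 / 2 - 1 / (4 * exp 1) := by
      field_simp; ring
    rw [h3] at h2
    linarith
  exact hdyn.E_bound hη (fun m => sq_nonneg _) m

end Space

end Pool.Agent.Results.MP_3cbb73_an.GreedyOrder

namespace Pool.Agent.Results.MP_3cbb73_an.GreedyOrder

open Real Filter Topology

section Lower

variable {H : Type*} [NormedAddCommGroup H] [InnerProductSpace ℝ H]

/-- orthonormal bases belong to every class `RB(C₁,C₂)` -/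
lemma isRB_of_orthonormal {C₁ C₂ : ℝ} (h1 : C₁ ≤ 1) (h2 : 1 ≤ C₂) {w : Set H}
    (hw : Orthonormal ℝ (Subtype.val : w → H)) (hd : Dense (Submodule.span ℝ w : Set H)) :
    IsRB C₁ C₂ w := by
  classical
  refine ⟨⟨fun g hg => hw.1 ⟨g, hg⟩, hd⟩, ?_⟩
  intro s c hs
  have hin : ∀ g ∈ s, ∀ h ∈ s, inner ℝ g h = if g = h then (1 : ℝ) else 0 := by
    intro g hg h hh
    have := (orthonormal_iff_ite.1 hw) ⟨g, hs g hg⟩ ⟨h, hs h hh⟩
    simpa using this
  have hn : ‖∑ g ∈ s, c g • g‖ ^ 2 = ∑ g ∈ s, |c g| ^ 2 := by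
    rw [← real_inner_self_eq_norm_sq, sum_inner]
    apply Finset.sum_congr rfl
    intro g hg
    rw [inner_sum, Finset.sum_eq_single g]
    · rw [inner_smul_left, inner_smul_right, hin g hg g hg, if_pos rfl, sq_abs]
      simp; ring
    · intro h hh hne
      rw [inner_smul_left, inner_smul_right, hin g hg h hh, if_neg (fun he => hne he.symm)]
      simp
    · intro h; exact absurd hg h
  have hn' : ‖∑ g ∈ s, c g • g‖ = √(∑ g ∈ s, |c g| ^ 2) := by
    rw [← hn, Real.sqrt_sq (norm_nonneg _)]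
  rw [hn']
  have h0 := Real.sqrt_nonneg (∑ g ∈ s, |c g| ^ 2)
  constructor
  · nlinarith
  · nlinarith

/-- the standard example -/
lemma lower_example {C₁ C₂ : ℝ} (h1 : C₁ ≤ 1) (h2 : 1 ≤ C₂) [CompleteSpace H]
    (hinf : ¬ FiniteDimensional ℝ H) (m : ℕ) (hm : 1 ≤ m) :
    1 / 2 / √(m : ℝ) ∈ errs H C₁ C₂ m := by
  classical
  obtain ⟨w, b, hb⟩ := exists_hilbertBasis ℝ H
  have hw : Orthonormal ℝ (Subtype.val : w → H) := by
    rw [← hb]; exact b.orthonormal
  have hd : Dense (Submodule.span ℝ w : Set H) := by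
    have h3 := b.dense_span
    rw [hb, Subtype.range_coe] at h3
    exact Submodule.dense_iff_topologicalClosure_eq_top.2 h3
  have hwinf : Infinite w := by
    by_contra hfin
    rw [not_infinite_iff_finite] at hfin
    apply hinf
    have hfd : FiniteDimensional ℝ (Submodule.span ℝ w) :=
      FiniteDimensional.span_of_finite ℝ (Set.toFinite w)
    have hcl : IsClosed (Submodule.span ℝ w : Set H) := Submodule.closed_of_finiteDimensional _
    have htop : Submodule.span ℝ w = ⊤ := by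
      apply SetLike.coe_injective
      rw [← hcl.closure_eq, hd.closure_eq]; rfl
    rw [htop] at hfd
    exact Module.Finite.equiv (Submodule.topEquiv (R := ℝ) (M := H))
  let ι : ℕ ↪ w := Infinite.natEmbedding w
  let e : ℕ → H := fun k => (ι k : H)
  have he : ∀ k, e k ∈ w := fun k => (ι k).2
  have heinj : ∀ i j, e i = e j → i = j := fun i j h => ι.injective (Subtype.ext h)
  have hin : ∀ g ∈ w, ∀ h ∈ w, inner ℝ g h = if g = h then (1 : ℝ) else 0 := by
    intro g hg h hh
    have := (orthonormal_iff_ite.1 hw) ⟨g, hg⟩ ⟨h, hh⟩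
    simpa using this
  let N : ℕ := 2 * m
  have hN : (0 : ℝ) < N := by
    have : 0 < N := by omega
    exact_mod_cast this
  let r : ℕ → H := fun j => ∑ k ∈ Finset.Ico j N, ((1 : ℝ) / N) • e k
  have hrin : ∀ j, ∀ g ∈ w, inner ℝ (r j) g =
      ∑ k ∈ Finset.Ico j N, (1 : ℝ) / N * (if e k = g then 1 else 0) := by
    intro j g hg
    simp only [r]
    rw [sum_inner]
    apply Finset.sum_congr rfl
    intro k _
    rw [inner_smul_left, hin _ (he k) _ hg]
    simp
  have hrval : ∀ j i, inner ℝ (r j) (e i) = if i ∈ Finset.Ico j N then (1 : ℝ) / N else 0 := by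
    intro j i
    rw [hrin j _ (he i)]
    have : ∀ k, (if e k = e i then (1 : ℝ) else 0) = if k = i then 1 else 0 := by
      intro k
      by_cases h : k = i
      · rw [if_pos h, if_pos (by rw [h])]
      · rw [if_neg h, if_neg (fun h' => h (heinj _ _ h'))]
    simp only [this, mul_ite, mul_one, mul_zero]
    rw [Finset.sum_ite_eq' (Finset.Ico j N) i]
  have hrle : ∀ j, ∀ g ∈ w, |inner ℝ (r j) g| ≤ if j < N then (1 : ℝ) / N else 0 := by
    intro j g hg
    by_cases hj : ∃ i, e i = g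
    · obtain ⟨i, rfl⟩ := hj
      rw [hrval]
      by_cases hi : i ∈ Finset.Ico j N
      · rw [if_pos hi]
        rw [Finset.mem_Ico] at hi
        rw [if_pos (lt_of_le_of_lt hi.1 hi.2), abs_of_pos (by positivity)]
      · rw [if_neg hi, abs_zero]
        split_ifs <;> positivity
    · rw [hrin j g hg, Finset.sum_eq_zero, abs_zero]
      · split_ifs <;> positivity
      · intro k _
        rw [if_neg (fun h => hj ⟨k, h⟩), mul_zero]
  refine ⟨w, r 0, e, r, isRB_of_orthonormal h1 h2 hw hd, ?_, ⟨rfl, ?_⟩, ?_⟩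
  · apply subset_closure
    refine ⟨(Finset.range N).image e, fun _ => 1 / N, ?_, ?_, ?_⟩
    · intro g hg
      rw [Finset.mem_image] at hg
      obtain ⟨k, _, rfl⟩ := hg
      exact he k
    · rw [Finset.sum_const, Finset.card_image_of_injective _ (fun i j h => heinj i j h),
        Finset.card_range, nsmul_eq_mul, abs_of_pos (by positivity)]
      apply le_of_eq
      field_simp
    · rw [Finset.sum_image (fun i _ j _ h => heinj i j h)]
      simp only [r, Nat.Ico_zero_eq_range]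
  · intro j
    have hval : |inner ℝ (r j) (e j)| = if j < N then (1 : ℝ) / N else 0 := by
      rw [hrval]
      by_cases hj : j < N
      · rw [if_pos (by rw [Finset.mem_Ico]; exact ⟨le_rfl, hj⟩), if_pos hj,
          abs_of_pos (by positivity)]
      · rw [if_neg (by rw [Finset.mem_Ico]; exact fun h => hj h.2), if_neg hj, abs_zero]
    refine ⟨he j, ?_, ?_⟩
    · apply le_antisymm
      · apply le_csSup
        · refine ⟨if j < N then (1 : ℝ) / N else 0, ?_⟩
          rintro x ⟨g, hg, rfl⟩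
          exact hrle j g hg
        · exact ⟨e j, he j, rfl⟩
      · apply csSup_le
        · exact ⟨_, e j, he j, rfl⟩
        · rintro x ⟨g, hg, rfl⟩
          rw [hval]
          exact hrle j g hg
    · rw [hrval]
      by_cases hj : j < N
      · rw [if_pos (by rw [Finset.mem_Ico]; exact ⟨le_rfl, hj⟩)]
        simp only [r]
        rw [Finset.sum_eq_sum_Ico_succ_bot hj]
        abel
      · rw [if_neg (by rw [Finset.mem_Ico]; exact fun h => hj h.2), zero_smul, sub_zero]
        simp only [r]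
        rw [Finset.Ico_eq_empty_of_le (by omega), Finset.Ico_eq_empty_of_le (by omega)]
  · have hsq : ‖r m‖ ^ 2 = 1 / (4 * m) := by
      rw [← real_inner_self_eq_norm_sq]
      have h3 : inner ℝ (r m) (r m) = ∑ k ∈ Finset.Ico m N, (1 : ℝ) / N * inner ℝ (r m) (e k) := by
        conv_lhs => rw [show r m = ∑ k ∈ Finset.Ico m N, ((1 : ℝ) / N) • e k from rfl]
        conv_lhs => enter [2]; rw [show ∑ k ∈ Finset.Ico m N, ((1 : ℝ) / N) • e k = r m from rfl]
        rw [real_inner_comm, inner_sum]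
        apply Finset.sum_congr rfl
        intro k _
        rw [inner_smul_right]
      rw [h3]
      have h4 : ∀ k ∈ Finset.Ico m N, (1 : ℝ) / N * inner ℝ (r m) (e k) = 1 / N * (1 / N) := by
        intro k hk
        rw [hrval, if_pos hk]
      rw [Finset.sum_congr rfl h4, Finset.sum_const, Nat.card_Ico, nsmul_eq_mul]
      have h5 : N - m = m := by omega
      rw [h5]
      have h6 : (N : ℝ) = 2 * m := by simp [N]
      rw [h6]
      have hm' : (0 : ℝ) < m := by exact_mod_cast hm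
      field_simp
      ring
    have hm' : (0 : ℝ) < m := by exact_mod_cast hm
    have h7 : (1 / 2 / √(m : ℝ)) ^ 2 = 1 / (4 * m) := by
      rw [div_pow, Real.sq_sqrt hm'.le]; field_simp; norm_num
    have h8 : (0 : ℝ) ≤ 1 / 2 / √(m : ℝ) := by positivity
    exact (pow_left_inj₀ h8 (norm_nonneg _) two_ne_zero).1 (by rw [h7, hsq])

end Lower

end Pool.Agent.Results.MP_3cbb73_an.GreedyOrder

namespace Pool.Agent.Results.MP_3cbb73_an.GreedyOrder

open Real

/-- For `C₁² > 2/(2e-1)` (that is `C₁ > 0.6714`) and every `C₂ ≥ 1`, the order of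
`γ(m, RB(C₁,C₂))` is `m^(-1/2)`. -/
theorem result.{u} (C₁ : ℝ) (h1 : 0 < C₁) (h2 : C₁ ≤ 1)
    (h3 : 2 < (2 * exp 1 - 1) * C₁ ^ 2) :
    ∃ c C : ℝ, 0 < c ∧ 0 < C ∧ ∀ C₂ : ℝ, 1 ≤ C₂ →
      ∀ (H : Type u) [NormedAddCommGroup H] [InnerProductSpace ℝ H] [CompleteSpace H]
        [TopologicalSpace.SeparableSpace H], ¬ FiniteDimensional ℝ H →
        ∀ m : ℕ, 1 ≤ m →
          (errs H C₁ C₂ m).Nonempty ∧ BddAbove (errs H C₁ C₂ m) ∧
          c / √(m : ℝ) ≤ gam H C₁ C₂ m ∧ gam H C₁ C₂ m ≤ C / √(m : ℝ) := by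
  refine ⟨1 / 2, |Kb (1 / C₁ ^ 2)| + 1, by norm_num, by positivity, ?_⟩
  intro C₂ hC₂ H _ _ _ _ hinf m hm
  have hm' : (0 : ℝ) < m := by exact_mod_cast hm
  have hex := lower_example (H := H) h2 hC₂ hinf m hm
  have hub : ∀ x ∈ errs H C₁ C₂ m, x ≤ (|Kb (1 / C₁ ^ 2)| + 1) / √(m : ℝ) := by
    rintro x ⟨B, f, φ, r, hB, hf, hr, rfl⟩
    have hu := upper hB h1 h3 hf hr m
    rw [le_div_iff₀ (Real.sqrt_pos.2 hm')]
    have h5 : (‖r m‖ * √(m : ℝ)) ^ 2 ≤ |Kb (1 / C₁ ^ 2)| ^ 2 := by
      rw [mul_pow, Real.sq_sqrt hm'.le, sq_abs]; exact hu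
    have h6 := abs_le_of_sq_le_sq' h5 (abs_nonneg _)
    linarith [h6.2]
  have hbdd : BddAbove (errs H C₁ C₂ m) := ⟨_, fun x hx => hub x hx⟩
  refine ⟨⟨_, hex⟩, hbdd, le_csSup hbdd hex, csSup_le ⟨_, hex⟩ hub⟩

end Pool.Agent.Results.MP_3cbb73_an.GreedyOrder
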